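import Mathlib

set_option autoImplicit false

open scoped ENNReal

namespace Pool.Agent.Results.MP_e34f63_pr.ParityCounterexample

/-- Finite ordered forests of plane trees with vertex types in `Fin K`: either empty, or a first
tree (the type `ty` of its root and the forest `ch` of the subtrees of the children of its root)
followed by the forest `rest` of the remaining trees. A finite plane tree with types is the pair
of the type `i` of its root and the forest `f` of the subtrees of its children. -/
inductive Forest (K : ℕ) : Type
  | nil : Forest K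
  | cons (ty : Fin K) (ch : Forest K) (rest : Forest K) : Forest K

/-- the word of the types of the roots of the trees of a forest -/
def types {K : ℕ} : Forest K → List (Fin K)
  | Forest.nil => []
  | Forest.cons ty _ rest => ty :: types rest

/-- number of vertices of type `k` of a forest -/
def count {K : ℕ} (k : Fin K) : Forest K → ℕ
  | Forest.nil => 0
  | Forest.cons ty ch rest => (if ty = k then 1 else 0) + count k ch + count k rest

/-- the product over the vertices of the forest of the offspring probabilities -/
noncomputable def weight {K : ℕ} (ζ : Fin K → PMF (List (Fin K))) : Forest K → ℝ≥0∞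
  | Forest.nil => 1
  | Forest.cons ty ch rest => ζ ty (types ch) * weight ζ ch * weight ζ rest

/-- the probability that the BGW tree with root type `i` is the finite tree `(i, f)` -/
noncomputable def treeProb {K : ℕ} (ζ : Fin K → PMF (List (Fin K))) (i : Fin K) (f : Forest K) :
    ℝ≥0∞ :=
  ζ i (types f) * weight ζ f

/-- number of vertices of type `k` of the tree `(i, f)` -/
def treeCount {K : ℕ} (i : Fin K) (f : Forest K) (k : Fin K) : ℕ :=
  (if i = k then 1 else 0) + count k f

/-- probability that the BGW tree with root type `i` is finite with `∑ k, Γ k * N_k = g` -/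
noncomputable def eventProb {K : ℕ} (ζ : Fin K → PMF (List (Fin K))) (Γ : Fin K → ℕ) (i : Fin K)
    (g : ℕ) : ℝ≥0∞ :=
  ∑' f : Forest K, if ∑ k, Γ k * treeCount i f k = g then treeProb ζ i f else 0

/-- law of the BGW tree with root type `i` conditioned on being finite with
`∑ k, Γ k * N_k = g`, evaluated at the tree `(i, f)` -/
noncomputable def condLaw {K : ℕ} (ζ : Fin K → PMF (List (Fin K))) (Γ : Fin K → ℕ) (i : Fin K)
    (g : ℕ) (f : Forest K) : ℝ≥0∞ :=
  if ∑ k, Γ k * treeCount i f k = g then treeProb ζ i f / eventProb ζ Γ i g else 0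

/-- condition (i): equality of the supports -/
def SameSupports {K : ℕ} (ζ ζ' : Fin K → PMF (List (Fin K))) : Prop :=
  ∀ i x, ζ i x = 0 ↔ ζ' i x = 0

/-- condition (ii) for a row `Γ` with positive entries (so that the conditioning event is a set
of finite trees): whenever the conditioning event has positive probability under `ζ`, it has
positive probability under `ζ'` and the conditioned trees have the same law -/
def SameConditionedTrees {K : ℕ} (Γ : Fin K → ℕ) (ζ ζ' : Fin K → PMF (List (Fin K))) : Prop :=
  ∀ i g, eventProb ζ Γ i g ≠ 0 → eventProb ζ' Γ i g ≠ 0 ∧ condLaw ζ Γ i g = condLaw ζ' Γ i g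

/-- non-degeneracy: every type has no children with positive probability, and at least two
children with positive probability -/
def NonDegenerate {K : ℕ} (ζ : Fin K → PMF (List (Fin K))) : Prop :=
  ∀ i, ζ i [] ≠ 0 ∧ ∃ x : List (Fin K), 2 ≤ x.length ∧ ζ i x ≠ 0

/-! ### the example -/

/-- fair mixture of two laws -/
noncomputable def mix {α : Type} (p q : PMF α) : PMF α :=
  (PMF.uniformOfFintype Bool).bind fun b => if b then p else q

theorem mix_apply {α : Type} (p q : PMF α) (x : α) : mix p q x = 2⁻¹ * p x + 2⁻¹ * q x := by
  unfold mix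
  rw [PMF.bind_apply, tsum_fintype, Fintype.sum_bool]
  simp

/-- type-2 offspring law: empty or `22` (types are numbered `0`, `1` in `Fin 2`) -/
noncomputable def z2 : PMF (List (Fin 2)) := mix (PMF.pure []) (PMF.pure [1, 1])

/-- type-1 offspring law of the first family: empty, `2` or `222` -/
noncomputable def z1 : PMF (List (Fin 2)) :=
  mix (PMF.pure []) (mix (PMF.pure [1]) (PMF.pure [1, 1, 1]))

/-- type-1 offspring law of the second family: additionally `22` -/
noncomputable def z1' : PMF (List (Fin 2)) := mix z1 (PMF.pure [1, 1])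

noncomputable def fam : Fin 2 → PMF (List (Fin 2)) := ![z1, z2]

noncomputable def fam' : Fin 2 → PMF (List (Fin 2)) := ![z1', z2]

theorem z2_ne {x : List (Fin 2)} (h : z2 x ≠ 0) : x = [] ∨ x = [1, 1] := by
  by_contra hcon
  push Not at hcon
  apply h
  unfold z2
  rw [mix_apply]
  simp [hcon.1, hcon.2]

theorem z1_ne {x : List (Fin 2)} (h : z1 x ≠ 0) : x = [] ∨ x = [1] ∨ x = [1, 1, 1] := by
  by_contra hcon
  push Not at hcon
  apply h
  unfold z1
  rw [mix_apply, mix_apply]
  simp [hcon.1, hcon.2.1, hcon.2.2]

theorem z1'_eq {x : List (Fin 2)} (h : x ≠ [1, 1]) : z1' x = 2⁻¹ * z1 x := by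
  unfold z1'
  rw [mix_apply]
  simp [h]

theorem z1'_pair_ne : z1' [1, 1] ≠ 0 := by
  unfold z1'
  rw [mix_apply]
  simp

theorem z1_pair : z1 [1, 1] = 0 := by
  unfold z1
  rw [mix_apply, mix_apply]
  simp

/-- total number of vertices -/
def size : Forest 2 → ℕ := fun f => count 0 f + count 1 f

theorem mem_types_of_fam {j : Fin 2} {x : List (Fin 2)} (h : fam' j x ≠ 0) : ∀ a ∈ x, a = 1 := by
  intro a ha
  obtain rfl | rfl : j = 0 ∨ j = 1 := by omega
  · by_cases hx : x = [1, 1]
    · subst hx; simp at ha; exact ha
    · have h1 : z1' x ≠ 0 := h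
      rw [z1'_eq hx] at h1
      have h2 : z1 x ≠ 0 := right_ne_zero_of_mul h1
      rcases z1_ne h2 with rfl | rfl | rfl <;> simp_all
  · have h1 : z2 x ≠ 0 := h
    rcases z2_ne h1 with rfl | rfl <;> simp_all

/-- forests all of whose roots have type 2 have the same weight under both families -/
theorem weight_eq (f : Forest 2) (hf : ∀ a ∈ types f, a = 1) : weight fam f = weight fam' f := by
  induction f with
  | nil => rfl
  | cons ty ch rest ih1 ih2 =>
    have hty : ty = 1 := hf ty (by simp [types])
    subst hty
    have hrest : ∀ a ∈ types rest, a = 1 := fun a ha => hf a (by simp [types, ha])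
    unfold weight
    rw [ih2 hrest]
    have e : fam 1 (types ch) = fam' 1 (types ch) := rfl
    rw [e]
    by_cases hz : fam' 1 (types ch) = 0
    · rw [hz]; simp
    · rw [ih1 (mem_types_of_fam hz)]

/-- parity: a charged forest with roots of type 2 has size of the parity of its length -/
theorem parity (f : Forest 2) (hf : ∀ a ∈ types f, a = 1) (hw : weight fam' f ≠ 0) :
    size f % 2 = (types f).length % 2 ∧ (types f).length ≤ size f := by
  induction f with
  | nil => simp [size, count, types]
  | cons ty ch rest ih1 ih2 =>
    have hty : ty = 1 := hf ty (by simp [types])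
    subst hty
    have hrest : ∀ a ∈ types rest, a = 1 := fun a ha => hf a (by simp [types, ha])
    unfold weight at hw
    have hr : weight fam' rest ≠ 0 := right_ne_zero_of_mul hw
    have hc' := left_ne_zero_of_mul hw
    have hz : fam' 1 (types ch) ≠ 0 := left_ne_zero_of_mul hc'
    have hc : weight fam' ch ≠ 0 := right_ne_zero_of_mul hc'
    obtain ⟨a1, a2⟩ := ih1 (mem_types_of_fam hz) hc
    obtain ⟨b1, b2⟩ := ih2 hrest hr
    have hev : (types ch).length % 2 = 0 := by
      have h1 : z2 (types ch) ≠ 0 := hz
      rcases z2_ne h1 with h | h <;> rw [h] <;> simp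
    have e : size (Forest.cons 1 ch rest) = 1 + size ch + size rest := by
      simp only [size, count]
      norm_num
      ring
    have e2 : (types (Forest.cons 1 ch rest)).length = (types rest).length + 1 := by
      simp [types]
    rw [e, e2]
    constructor
    · omega
    · omega

theorem sum_eq (i : Fin 2) (f : Forest 2) : ∑ k, (fun _ => 1 : Fin 2 → ℕ) k * treeCount i f k = 1 + size f := by
  rw [Fin.sum_univ_two]
  simp only [treeCount, size, one_mul]
  obtain rfl | rfl : i = 0 ∨ i = 1 := by omega
  · norm_num
    ring
  · norm_num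
    ring

/-- key: on a size charged by the first family the second tree law is proportional -/
theorem treeProb_one (f : Forest 2) : treeProb fam' 1 f = treeProb fam 1 f := by
  unfold treeProb
  have e : fam 1 (types f) = fam' 1 (types f) := rfl
  rw [e]
  by_cases hz : fam' 1 (types f) = 0
  · rw [hz]; simp
  · rw [weight_eq f (mem_types_of_fam hz)]

theorem treeProb_zero (f f₀ : Forest 2) (h₀ : treeProb fam 0 f₀ ≠ 0) (hs : size f = size f₀) :
    treeProb fam' 0 f = 2⁻¹ * treeProb fam 0 f := by
  unfold treeProb at *
  have hz₀ : z1 (types f₀) ≠ 0 := left_ne_zero_of_mul h₀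
  have hw₀ : weight fam f₀ ≠ 0 := right_ne_zero_of_mul h₀
  have ht₀ : ∀ a ∈ types f₀, a = 1 := by
    rcases z1_ne hz₀ with h | h | h <;> rw [h] <;> simp
  rw [weight_eq f₀ ht₀] at hw₀
  obtain ⟨p1, p2⟩ := parity f₀ ht₀ hw₀
  by_cases hx : types f = [1, 1]
  · -- then the weight vanishes
    have ht : ∀ a ∈ types f, a = 1 := by rw [hx]; simp
    have hw : weight fam' f = 0 := by
      by_contra hw
      obtain ⟨q1, q2⟩ := parity f ht hw
      rw [hx] at q1 q2
      simp at q1 q2
      rcases z1_ne hz₀ with h | h | h
      · -- f₀ is empty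
        have : f₀ = Forest.nil := by
          cases f₀ with
          | nil => rfl
          | cons ty ch rest => simp [types] at h
        subst this
        simp [size, count] at hs
        have h2 : size f = 0 := by
          simp only [size]
          omega
        omega
      · rw [h] at p1
        simp at p1
        omega
      · rw [h] at p1
        simp at p1
        omega
    rw [weight_eq f ht, hw]
    simp
  · have e1 : fam' 0 (types f) = 2⁻¹ * fam 0 (types f) := z1'_eq hx
    rw [e1]
    by_cases hz : fam 0 (types f) = 0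
    · rw [hz]; simp
    · have ht : ∀ a ∈ types f, a = 1 := by
        have hz' : z1 (types f) ≠ 0 := hz
        rcases z1_ne hz' with h | h | h <;> rw [h] <;> simp
      rw [weight_eq f ht, mul_assoc]

theorem same_trees : SameConditionedTrees (fun _ => 1) fam fam' := by
  intro i g hg
  obtain rfl | rfl : i = 0 ∨ i = 1 := by omega
  · -- root of type 1
    obtain ⟨f₀, hf₀⟩ : ∃ f₀ : Forest 2, 1 + size f₀ = g ∧ treeProb fam 0 f₀ ≠ 0 := by
      by_contra hcon
      push Not at hcon
      apply hg
      unfold eventProb
      rw [ENNReal.tsum_eq_zero]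
      intro f
      rw [sum_eq]
      split_ifs with h
      · exact hcon f h
      · rfl
    have key : ∀ f, 1 + size f = g → treeProb fam' 0 f = 2⁻¹ * treeProb fam 0 f := fun f hf =>
      treeProb_zero f f₀ hf₀.2 (by omega)
    have hev : eventProb fam' (fun _ => 1) 0 g = 2⁻¹ * eventProb fam (fun _ => 1) 0 g := by
      unfold eventProb
      rw [← ENNReal.tsum_mul_left]
      refine tsum_congr fun f => ?_
      rw [sum_eq]
      split_ifs with h
      · exact key f h
      · simp
    have h2 : (2⁻¹ : ℝ≥0∞) ≠ 0 := by simp
    have h3 : (2⁻¹ : ℝ≥0∞) ≠ ⊤ := by simp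
    refine ⟨by rw [hev]; exact mul_ne_zero h2 hg, ?_⟩
    funext f
    unfold condLaw
    rw [sum_eq]
    split_ifs with h
    · rw [key f h, hev, ENNReal.mul_div_mul_left _ _ h2 h3]
    · rfl
  · have hev : eventProb fam' (fun _ => 1) 1 g = eventProb fam (fun _ => 1) 1 g := by
      unfold eventProb
      refine tsum_congr fun f => ?_
      rw [treeProb_one]
    refine ⟨by rw [hev]; exact hg, ?_⟩
    funext f
    unfold condLaw
    rw [treeProb_one, hev]

/-- With `K = 2` types and `Γ = (1, 1)` (conditioning on the total number of vertices), condition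
(ii) does not imply condition (i), even for non-degenerate families. -/
theorem result : ∃ ζ ζ' : Fin 2 → PMF (List (Fin 2)), NonDegenerate ζ ∧ NonDegenerate ζ' ∧
    SameConditionedTrees (fun _ => 1) ζ ζ' ∧ ¬ SameSupports ζ ζ' := by
  have hz2 : z2 [] ≠ 0 ∧ ∃ x : List (Fin 2), 2 ≤ x.length ∧ z2 x ≠ 0 := by
    refine ⟨?_, [1, 1], by simp, ?_⟩
    · unfold z2; rw [mix_apply]; simp
    · unfold z2; rw [mix_apply]; simp
  have hz1 : z1 [] ≠ 0 ∧ z1 [1, 1, 1] ≠ 0 := by
    constructor
    · unfold z1; rw [mix_apply]; simp
    · unfold z1; rw [mix_apply, mix_apply]; simp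
  refine ⟨fam, fam', ?_, ?_, same_trees, ?_⟩
  · intro i
    obtain rfl | rfl : i = 0 ∨ i = 1 := by omega
    · exact ⟨hz1.1, [1, 1, 1], by simp, hz1.2⟩
    · exact hz2
  · intro i
    obtain rfl | rfl : i = 0 ∨ i = 1 := by omega
    · refine ⟨?_, [1, 1], by simp, z1'_pair_ne⟩
      show z1' [] ≠ 0
      rw [z1'_eq (by simp)]
      exact mul_ne_zero (by simp) hz1.1
    · exact hz2
  · intro h
    exact z1'_pair_ne ((h 0 [1, 1]).mp z1_pair)

end Pool.Agent.Results.MP_e34f63_pr.ParityCounterexample
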